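import Pool.Agent.Helper23.MV.StL

/-!
# Project MV, module DET: detection of zeros
-/

set_option autoImplicit false

namespace Pool.Agent.Helper33.MV

open Pool.Agent.Helper23.MV Finset

private theorem sd_D33 (A : ℕ → ℝ) (M : ℕ) (hA : ∀ d, M < d → A d = 0) (n : ℕ) (hn : 1 ≤ n) :
    sd A n = ∑ d ∈ Icc 1 M, if d ∣ n then A d else 0 := by
  unfold sd
  rw [← Finset.sum_filter]
  symm
  apply Finset.sum_subset_zero_on_sdiff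
  · intro d hd
    rw [mem_filter, mem_Icc] at hd
    exact Nat.mem_divisors.2 ⟨hd.2, by omega⟩
  · intro d hd
    rw [mem_sdiff, mem_filter, mem_Icc, Nat.mem_divisors] at hd
    apply hA
    by_contra hcon
    push Not at hcon
    exact hd.2 ⟨⟨Nat.pos_of_dvd_of_pos hd.1.1 (by omega), hcon⟩, hd.1.1⟩
  · intro d _
    rfl

private theorem expand_D33 (A B : ℕ → ℝ) (M₁ M₂ N : ℕ) (hA : ∀ d, M₁ < d → A d = 0)
    (hB : ∀ d, M₂ < d → B d = 0) (f : ℕ → ℂ) :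
    ∑ n ∈ Icc 1 N, ((sd A n * sd B n : ℝ) : ℂ) * f n =
      ∑ d₁ ∈ Icc 1 M₁, ∑ d₂ ∈ Icc 1 M₂, ((A d₁ * B d₂ : ℝ) : ℂ) *
        ∑ n ∈ (Icc 1 N).filter (fun n => Nat.lcm d₁ d₂ ∣ n), f n := by
  have h1 : ∀ n ∈ Icc 1 N, ((sd A n * sd B n : ℝ) : ℂ) * f n =
      ∑ d₁ ∈ Icc 1 M₁, ∑ d₂ ∈ Icc 1 M₂, ((A d₁ * B d₂ : ℝ) : ℂ) *
        (if Nat.lcm d₁ d₂ ∣ n then f n else 0) := by
    intro n hn
    rw [sd_D33 A M₁ hA n (mem_Icc.1 hn).1, sd_D33 B M₂ hB n (mem_Icc.1 hn).1,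
      Finset.sum_mul_sum]
    push_cast
    rw [Finset.sum_mul]
    refine Finset.sum_congr rfl fun d₁ _ => ?_
    rw [Finset.sum_mul]
    refine Finset.sum_congr rfl fun d₂ _ => ?_
    by_cases h1 : d₁ ∣ n
    · by_cases h2 : d₂ ∣ n
      · rw [if_pos h1, if_pos h2, if_pos (Nat.lcm_dvd h1 h2)]
      · rw [if_pos h1, if_neg h2, if_neg (fun h => h2 ((Nat.dvd_lcm_right _ _).trans h))]
        simp
    · rw [if_neg h1, if_neg (fun h => h1 ((Nat.dvd_lcm_left _ _).trans h))]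
      simp
  rw [Finset.sum_congr rfl h1, Finset.sum_comm]
  refine Finset.sum_congr rfl fun d₁ _ => ?_
  rw [Finset.sum_comm]
  refine Finset.sum_congr rfl fun d₂ _ => ?_
  rw [← Finset.mul_sum, Finset.sum_filter]

private theorem multiples_D33 (D N : ℕ) (hD : 1 ≤ D) (f : ℕ → ℂ) :
    ∑ n ∈ (Icc 1 N).filter (fun n => D ∣ n), f n = ∑ m ∈ Ioc 0 (N / D), f (D * m) := by
  symm
  refine Finset.sum_bij (fun m _ => D * m) ?_ ?_ ?_ ?_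
  · intro m hm
    rw [mem_Ioc] at hm
    rw [mem_filter, mem_Icc]
    refine ⟨⟨Nat.mul_pos hD hm.1, ?_⟩, Dvd.intro _ rfl⟩
    calc D * m ≤ D * (N / D) := Nat.mul_le_mul_left _ hm.2
      _ ≤ N := Nat.mul_div_le _ _
  · intro m _ m' _ h
    exact Nat.eq_of_mul_eq_mul_left hD h
  · intro n hn
    rw [mem_filter, mem_Icc] at hn
    obtain ⟨m, rfl⟩ := hn.2
    refine ⟨m, ?_, rfl⟩
    rw [mem_Ioc]
    constructor
    · rcases Nat.eq_zero_or_pos m with h | h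
      · subst h; omega
      · exact h
    · rw [Nat.le_div_iff_mul_le hD]
      calc m * D = D * m := Nat.mul_comm _ _
        _ ≤ N := hn.1.2
  · intro m _
    rfl

private theorem inner_D33 {q : ℕ} (ψ : DirichletCharacter ℂ q) (x : ℝ) (D : ℕ)
    (hD : 1 ≤ D) (s : ℂ) :
    ∑ n ∈ (Icc 1 ⌊x⌋₊).filter (fun n => D ∣ n), ψ (n : ZMod q) * (n : ℂ) ^ (-s) =
      ψ (D : ZMod q) * (D : ℂ) ^ (-s) * DS ψ (x / D) s := by
  rw [multiples_D33 D _ hD]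
  unfold DS
  rw [Nat.floor_div_natCast, Finset.mul_sum]
  refine Finset.sum_congr rfl fun m _ => ?_
  rw [Nat.cast_mul, map_mul]
  have h2 : ((D * m : ℕ) : ℂ) ^ (-s) = (D : ℂ) ^ (-s) * (m : ℂ) ^ (-s) := by
    rw [Nat.cast_mul, Complex.natCast_mul_natCast_cpow]
  rw [h2]
  ring

private theorem large_D33 (ε : ℝ) (hε : 0 < ε) : ∃ X0 : ℝ, 2 ≤ X0 ∧ ∀ X : ℝ, X0 ≤ X →
    (1 + Real.log X) ^ 3 * X ^ (-(4 * ε)) ≤ 1 / 2 := by
  refine ⟨max 2 ((2 * (1 + 1 / ε) ^ 3) ^ (1 / ε)), le_max_left _ _, fun X hX => ?_⟩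
  have hX2 : 2 ≤ X := (le_max_left _ _).trans hX
  have hX0 : 0 < X := by linarith
  have hK : 0 < 1 + 1 / ε := by positivity
  have h1 : 2 * (1 + 1 / ε) ^ 3 ≤ X ^ ε := by
    have h2 : (2 * (1 + 1 / ε) ^ 3) ^ (1 / ε) ≤ X := (le_max_right _ _).trans hX
    have h3 := Real.rpow_le_rpow (by positivity) h2 hε.le
    rwa [← Real.rpow_mul (by positivity), one_div_mul_cancel hε.ne', Real.rpow_one] at h3
  have hXe : 0 < X ^ ε := Real.rpow_pos_of_pos hX0 _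
  have h4 : Real.log X ≤ X ^ ε / ε := Real.log_le_rpow_div hX0.le hε
  have h5 : (1 : ℝ) ≤ X ^ ε := Real.one_le_rpow (by linarith) hε.le
  have h6 : 1 + Real.log X ≤ (1 + 1 / ε) * X ^ ε := by
    have : (1 + 1 / ε) * X ^ ε = X ^ ε + X ^ ε / ε := by ring
    rw [this]
    linarith
  have hl : 0 ≤ Real.log X := Real.log_nonneg (by linarith)
  have h7 : (1 + Real.log X) ^ 3 ≤ ((1 + 1 / ε) * X ^ ε) ^ 3 :=
    pow_le_pow_left₀ (by linarith) h6 3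
  have h8 : X ^ (-(4 * ε)) = (X ^ ε)⁻¹ ^ 4 := by
    rw [Real.rpow_neg hX0.le, mul_comm, Real.rpow_mul hX0.le, inv_pow]
    congr 1
    exact Real.rpow_natCast (X ^ ε) 4
  rw [h8]
  calc (1 + Real.log X) ^ 3 * (X ^ ε)⁻¹ ^ 4
      ≤ ((1 + 1 / ε) * X ^ ε) ^ 3 * (X ^ ε)⁻¹ ^ 4 :=
        mul_le_mul_of_nonneg_right h7 (by positivity)
    _ = (1 + 1 / ε) ^ 3 / X ^ ε := by field_simp
    _ ≤ 1 / 2 := by
        rw [div_le_div_iff₀ hXe (by norm_num)]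
        linarith

theorem hDet (hTr1 : StTr1) (hAz0 : StAz0) (hLcs : StLcs) : StDet := by
  intro κ hκ hκ1
  obtain ⟨c₁, X₁, hc₁, hc₁κ, hX₁, hT⟩ := hTr1 κ hκ (by linarith)
  obtain ⟨X₂, hX₂, hlarge⟩ := large_D33 (c₁ / 8) (by positivity)
  refine ⟨c₁ / 2, max X₁ X₂, by positivity, by linarith, hX₂.trans (le_max_right _ _), ?_⟩
  intro X e θ ρ hX hr hχ hθ1 hθ hθ0 hρ hre him
  have hXX₁ : X₁ ≤ X := (le_max_left _ _).trans hX
  have hXX₂ : X₂ ≤ X := (le_max_right _ _).trans hX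
  have hX2 : 2 ≤ X := hX₂.trans hXX₂
  have hX0 : 0 < X := by linarith
  have hX1 : 1 ≤ X := by linarith
  have hL : 0 ≤ Real.log X := Real.log_nonneg hX1
  have hpow : ∀ a b : ℝ, a ≤ b → X ^ a ≤ X ^ b := fun a b h => Real.rpow_le_rpow_of_exponent_le hX1 h
  have hone : ∀ a : ℝ, 0 ≤ a → 1 ≤ X ^ a := fun a h => Real.one_le_rpow hX1 h
  have hpos : ∀ a : ℝ, 0 < X ^ a := fun a => Real.rpow_pos_of_pos hX0 a
  -- the real part of the zero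
  have hre1 : ρ.re ≤ 1 := by
    by_contra hcon
    push Not at hcon
    exact DirichletCharacter.LFunction_ne_zero_of_one_le_re e.χ (Or.inl hχ) hcon.le hρ
  set z₁ := X ^ (5 * κ) with hz₁
  set z₂ := X ^ (6 * κ) with hz₂
  have hz12 : z₁ < z₂ := Real.rpow_lt_rpow_of_exponent_lt (by linarith) (by linarith)
  obtain ⟨l1, l2, l3, l4, -⟩ := hAz0.1 z₁ z₂ (hone _ (by positivity)) hz12
  set A : ℕ → ℝ := lam z₁ z₂ with hAdef
  -- the full sum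
  set f : ℕ → ℂ := fun n => e.ev n * (n : ℂ) ^ (-ρ) with hf
  have hexp := expand_D33 A θ ⌊z₂⌋₊ ⌊X ^ κ⌋₊ ⌊X ^ (8 * κ)⌋₊
    (fun d hd => l4 d ((Nat.floor_lt (hpos _).le).1 hd))
    (fun d hd => hθ0 d ((Nat.floor_lt (hpos _).le).1 hd)) f
  -- each inner sum is small
  have hterm : ∀ d₁ ∈ Icc 1 ⌊z₂⌋₊, ∀ d₂ ∈ Icc 1 ⌊X ^ κ⌋₊,
      ‖((A d₁ * θ d₂ : ℝ) : ℂ) *
        ∑ n ∈ (Icc 1 ⌊X ^ (8 * κ)⌋₊).filter (fun n => Nat.lcm d₁ d₂ ∣ n), f n‖ ≤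
      X ^ (-c₁) * (Nat.lcm d₁ d₂ : ℝ) ^ (-ρ.re) := by
    intro d₁ hd₁ d₂ hd₂
    rw [mem_Icc] at hd₁ hd₂
    have hD : 1 ≤ Nat.lcm d₁ d₂ := Nat.lcm_pos hd₁.1 hd₂.1
    have hDr : (0 : ℝ) < (Nat.lcm d₁ d₂ : ℝ) := by exact_mod_cast hD
    have hD7 : (Nat.lcm d₁ d₂ : ℝ) ≤ X ^ (7 * κ) := by
      have h1 : (d₁ : ℝ) ≤ z₂ := (Nat.le_floor_iff (hpos _).le).1 hd₁.2
      have h2 : (d₂ : ℝ) ≤ X ^ κ := (Nat.le_floor_iff (hpos _).le).1 hd₂.2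
      have h3 : Nat.lcm d₁ d₂ ≤ d₁ * d₂ := Nat.div_le_self _ _
      calc (Nat.lcm d₁ d₂ : ℝ) ≤ (d₁ : ℝ) * d₂ := by exact_mod_cast h3
        _ ≤ z₂ * X ^ κ := mul_le_mul h1 h2 (Nat.cast_nonneg _) (hpos _).le
        _ = X ^ (7 * κ) := by
            rw [hz₂, ← Real.rpow_add hX0]
            congr 1
            ring
    have hy : X ^ κ ≤ X ^ (8 * κ) / (Nat.lcm d₁ d₂ : ℝ) := by
      rw [le_div_iff₀ hDr]
      calc X ^ κ * (Nat.lcm d₁ d₂ : ℝ) ≤ X ^ κ * X ^ (7 * κ) :=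
            mul_le_mul_of_nonneg_left hD7 (hpos _).le
        _ = X ^ (8 * κ) := by
            rw [← Real.rpow_add hX0]
            congr 1
            ring
    have hin := inner_D33 e.χ (X ^ (8 * κ)) (Nat.lcm d₁ d₂) hD ρ
    have hin' : ∑ n ∈ (Icc 1 ⌊X ^ (8 * κ)⌋₊).filter (fun n => Nat.lcm d₁ d₂ ∣ n), f n =
        e.χ ((Nat.lcm d₁ d₂ : ℕ) : ZMod e.r) * ((Nat.lcm d₁ d₂ : ℕ) : ℂ) ^ (-ρ) *
          DS e.χ (X ^ (8 * κ) / (Nat.lcm d₁ d₂ : ℕ)) ρ := hin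
    have hDS : ‖DS e.χ (X ^ (8 * κ) / (Nat.lcm d₁ d₂ : ℕ)) ρ‖ ≤ X ^ (-c₁) := by
      have h1 := hT X (X ^ (8 * κ) / (Nat.lcm d₁ d₂ : ℕ)) e.r e.χ ρ hXX₁
        (hr.trans (hpow _ _ (by linarith))) hy hχ (by linarith) (by linarith)
        (him.trans (by nlinarith))
      have h2 : DirichletCharacter.LFunction e.χ ρ = 0 := hρ
      rwa [h2, sub_zero] at h1
    rw [hin', norm_mul, norm_mul, norm_mul, Complex.norm_real, Real.norm_eq_abs, abs_mul,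
      Complex.norm_natCast_cpow_of_pos hD, Complex.neg_re]
    have hχ1 : ‖e.χ ((Nat.lcm d₁ d₂ : ℕ) : ZMod e.r)‖ ≤ 1 := DirichletCharacter.norm_le_one _ _
    have hAB : |A d₁| * |θ d₂| ≤ 1 := by
      calc |A d₁| * |θ d₂| ≤ 1 * 1 := mul_le_mul (l3 _) (hθ _) (abs_nonneg _) zero_le_one
        _ = 1 := one_mul 1
    have hDp : 0 ≤ (Nat.lcm d₁ d₂ : ℝ) ^ (-ρ.re) := Real.rpow_nonneg hDr.le _
    calc |A d₁| * |θ d₂| * (‖e.χ ((Nat.lcm d₁ d₂ : ℕ) : ZMod e.r)‖ *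
          (Nat.lcm d₁ d₂ : ℝ) ^ (-ρ.re) * ‖DS e.χ (X ^ (8 * κ) / (Nat.lcm d₁ d₂ : ℕ)) ρ‖)
        ≤ 1 * (1 * (Nat.lcm d₁ d₂ : ℝ) ^ (-ρ.re) * X ^ (-c₁)) := by
          refine mul_le_mul hAB ?_ (by positivity) zero_le_one
          refine mul_le_mul ?_ hDS (norm_nonneg _) (by positivity)
          exact mul_le_mul_of_nonneg_right hχ1 hDp
      _ = X ^ (-c₁) * (Nat.lcm d₁ d₂ : ℝ) ^ (-ρ.re) := by ring
  have hlcs := hLcs z₂ ρ.re (X ^ κ) (hone _ (by positivity)) (hone _ hκ.le) hre1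
  have hsum : ‖∑ n ∈ Icc 1 ⌊X ^ (8 * κ)⌋₊, ((sd A n * sd θ n : ℝ) : ℂ) * f n‖ ≤ 1 / 2 := by
    rw [hexp]
    have hA1 : ‖∑ d₁ ∈ Icc 1 ⌊z₂⌋₊, ∑ d₂ ∈ Icc 1 ⌊X ^ κ⌋₊, ((A d₁ * θ d₂ : ℝ) : ℂ) *
        ∑ n ∈ (Icc 1 ⌊X ^ (8 * κ)⌋₊).filter (fun n => Nat.lcm d₁ d₂ ∣ n), f n‖ ≤
        X ^ (-c₁) * ∑ d₁ ∈ Icc 1 ⌊z₂⌋₊, ∑ d₂ ∈ Icc 1 ⌊X ^ κ⌋₊,
          (Nat.lcm d₁ d₂ : ℝ) ^ (-ρ.re) := by
      rw [Finset.mul_sum]
      refine norm_sum_le_of_le _ fun d₁ hd₁ => ?_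
      rw [Finset.mul_sum]
      exact norm_sum_le_of_le _ fun d₂ hd₂ => hterm d₁ hd₁ d₂ hd₂
    have hzw : (z₂ * X ^ κ) ^ (1 - ρ.re) ≤ X ^ (c₁ / 2) := by
      rw [hz₂, ← Real.rpow_add hX0, ← Real.rpow_mul hX0.le]
      apply hpow
      have h0 : 0 ≤ 1 - ρ.re := by linarith
      have h1 : 1 - ρ.re ≤ c₁ / 2 := by linarith
      have h2 : 6 * κ + κ ≤ 1 := by linarith
      nlinarith
    have hl1 : 1 + Real.log z₂ ≤ 1 + Real.log X := by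
      rw [hz₂, Real.log_rpow hX0]
      nlinarith
    have hl2 : 1 + Real.log (X ^ κ) ≤ 1 + Real.log X := by
      rw [Real.log_rpow hX0]
      nlinarith
    have hl3 : 1 + Real.log (min z₂ (X ^ κ)) ≤ 1 + Real.log X := by
      have : Real.log (min z₂ (X ^ κ)) ≤ Real.log (X ^ κ) :=
        Real.log_le_log (lt_min (hpos _) (hpos _)) (min_le_right _ _)
      linarith
    have hl0 : 0 ≤ 1 + Real.log (X ^ κ) := by
      rw [Real.log_rpow hX0]; positivity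
    have hl0' : 0 ≤ 1 + Real.log z₂ := by
      rw [hz₂, Real.log_rpow hX0]; positivity
    have hl0'' : 0 ≤ 1 + Real.log (min z₂ (X ^ κ)) := by
      have : 0 ≤ Real.log (min z₂ (X ^ κ)) :=
        Real.log_nonneg (le_min (hone _ (by positivity)) (hone _ hκ.le))
      linarith
    have hbig : (z₂ * X ^ κ) ^ (1 - ρ.re) * (1 + Real.log z₂) * (1 + Real.log (X ^ κ)) *
        (1 + Real.log (min z₂ (X ^ κ))) ≤ X ^ (c₁ / 2) * (1 + Real.log X) ^ 3 := by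
      have hzw0 : 0 ≤ (z₂ * X ^ κ) ^ (1 - ρ.re) :=
        Real.rpow_nonneg (mul_nonneg (hpos _).le (hpos _).le) _
      calc _ ≤ X ^ (c₁ / 2) * (1 + Real.log X) * (1 + Real.log X) * (1 + Real.log X) := by
            refine mul_le_mul ?_ hl3 hl0'' (by positivity)
            refine mul_le_mul ?_ hl2 hl0 (by positivity)
            exact mul_le_mul hzw hl1 hl0' (hpos _).le
        _ = _ := by ring
    calc _ ≤ _ := hA1
      _ ≤ X ^ (-c₁) * (X ^ (c₁ / 2) * (1 + Real.log X) ^ 3) :=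
          mul_le_mul_of_nonneg_left (hlcs.trans hbig) (hpos _).le
      _ = (1 + Real.log X) ^ 3 * X ^ (-(4 * (c₁ / 8))) := by
          rw [← mul_assoc, ← Real.rpow_add hX0, mul_comm]
          congr 2
          ring
      _ ≤ 1 / 2 := hlarge X hXX₂
  -- split off n = 1 and the n ≤ z₁
  have hx1 : 1 ≤ ⌊X ^ (8 * κ)⌋₊ := by
    rw [Nat.one_le_floor_iff]
    exact hone _ (by positivity)
  have hsplit : ∑ n ∈ Icc 1 ⌊X ^ (8 * κ)⌋₊, ((sd A n * sd θ n : ℝ) : ℂ) * f n =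
      1 + ∑ n ∈ (Icc 1 ⌊X ^ (8 * κ)⌋₊).filter (fun n : ℕ => z₁ < n),
        ((sd A n * sd θ n : ℝ) : ℂ) * f n := by
    have hmem : 1 ∈ (Icc 1 ⌊X ^ (8 * κ)⌋₊).filter (fun n : ℕ => ¬ z₁ < n) := by
      rw [mem_filter, mem_Icc, not_lt]
      exact ⟨⟨le_refl _, hx1⟩, by rw [Nat.cast_one]; exact hone _ (by positivity)⟩
    rw [← Finset.sum_filter_add_sum_filter_not (Icc 1 ⌊X ^ (8 * κ)⌋₊) (fun n : ℕ => z₁ < n),
      add_comm]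
    congr 1
    rw [Finset.sum_eq_single_of_mem 1 hmem]
    · have h1 : sd θ 1 = 1 := by
        unfold sd
        rw [Nat.divisors_one, Finset.sum_singleton, hθ1]
      rw [l1, h1, hf]
      simp only [PCh.ev]
      simp
    · intro n hn hn1
      rw [mem_filter, mem_Icc, not_lt] at hn
      rw [l2 n (by omega) hn.2]
      simp
  have hgoal : ∑ n ∈ (Icc 1 ⌊X ^ (8 * κ)⌋₊).filter (fun n : ℕ => z₁ < n),
      ((sd A n * sd θ n : ℝ) : ℂ) * e.ev n * (n : ℂ) ^ (-ρ) =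
      ∑ n ∈ (Icc 1 ⌊X ^ (8 * κ)⌋₊).filter (fun n : ℕ => z₁ < n),
        ((sd A n * sd θ n : ℝ) : ℂ) * f n := by
    refine Finset.sum_congr rfl fun n _ => ?_
    rw [hf]
    ring
  rw [hgoal]
  rw [hsplit] at hsum
  set T := ∑ n ∈ (Icc 1 ⌊X ^ (8 * κ)⌋₊).filter (fun n : ℕ => z₁ < n),
    ((sd A n * sd θ n : ℝ) : ℂ) * f n
  have h1 : (1 : ℝ) ≤ ‖1 + T‖ + ‖T‖ := by
    have h2 := norm_sub_le (1 + T) T
    rw [add_sub_cancel_right, norm_one] at h2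
    exact h2
  linarith

end Pool.Agent.Helper33.MV
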