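import Pool.Agent.Helper23.MV.StL

/-!
# Project MV, module TNT: transform of the tent
-/

set_option autoImplicit false

namespace Pool.Agent.Helper33.MV

open Pool.Agent.Helper23.MV MeasureTheory Set

private theorem tn_cont_T33 (Y₀ Y₁ : ℝ) : ContinuousOn (fun u : ℝ => tn Y₀ Y₁ u) (Ioi 0) := by
  have h1 : ContinuousOn (fun u : ℝ => Real.log u) (Ioi 0) := fun u hu =>
    (Real.continuousAt_log (ne_of_gt hu)).continuousWithinAt
  unfold tn
  refine ContinuousOn.sup continuousOn_const ?_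
  exact continuousOn_const.mul (continuousOn_const.sub
    (((h1.sub continuousOn_const).abs).div_const _))

private theorem split_T33 {E : Type} [NormedAddCommGroup E] [NormedSpace ℝ E]
    (Y₀ Y₁ : ℝ) (h1 : 0 < Y₁) (h2 : Y₁ ≤ Y₀) (g : ℝ → E) (hg : ContinuousOn g (Ioi 0)) :
    ∫ u in Ioi (1 : ℝ), tn Y₀ Y₁ u • g u =
      (∫ u in (Real.exp (Y₀ - Y₁))..(Real.exp Y₀), (2 / Y₁ * (Real.log u - (Y₀ - Y₁))) • g u) +
      ∫ u in (Real.exp Y₀)..(Real.exp (Y₀ + Y₁)), (2 / Y₁ * ((Y₀ + Y₁) - Real.log u)) • g u := by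
  have e1 : Real.exp (Y₀ - Y₁) ≤ Real.exp Y₀ := Real.exp_le_exp.2 (by linarith)
  have e2 : Real.exp Y₀ ≤ Real.exp (Y₀ + Y₁) := Real.exp_le_exp.2 (by linarith)
  have hone : 1 ≤ Real.exp (Y₀ - Y₁) := Real.one_le_exp (by linarith)
  have hcont : ContinuousOn (fun u : ℝ => tn Y₀ Y₁ u • g u) (Ioi 0) := (tn_cont_T33 Y₀ Y₁).smul hg
  have hsub : Ioc (Real.exp (Y₀ - Y₁)) (Real.exp (Y₀ + Y₁)) ⊆ Ioi (1 : ℝ) := fun u hu =>
    lt_of_le_of_lt hone hu.1
  rw [setIntegral_eq_of_subset_of_forall_sdiff_eq_zero measurableSet_Ioi hsub,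
    ← intervalIntegral.integral_of_le (e1.trans e2),
    ← intervalIntegral.integral_add_adjacent_intervals (b := Real.exp Y₀)]
  · congr 1
    · refine intervalIntegral.integral_congr fun u hu => ?_
      rw [uIcc_of_le e1] at hu
      have hu0 : 0 < u := lt_of_lt_of_le (Real.exp_pos _) hu.1
      have l1 : Y₀ - Y₁ ≤ Real.log u := by rw [Real.le_log_iff_exp_le hu0]; exact hu.1
      have l2 : Real.log u ≤ Y₀ := by rw [Real.log_le_iff_le_exp hu0]; exact hu.2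
      have : tn Y₀ Y₁ u = 2 / Y₁ * (Real.log u - (Y₀ - Y₁)) := by
        unfold tn
        rw [abs_of_nonpos (by linarith)]
        have e3 : 2 * (1 - -(Real.log u - Y₀) / Y₁) = 2 / Y₁ * (Real.log u - (Y₀ - Y₁)) := by
          field_simp
          ring
        rw [e3]
        exact max_eq_right (mul_nonneg (by positivity) (by linarith))
      simp only [this]
    · refine intervalIntegral.integral_congr fun u hu => ?_
      rw [uIcc_of_le e2] at hu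
      have hu0 : 0 < u := lt_of_lt_of_le (Real.exp_pos _) hu.1
      have l1 : Y₀ ≤ Real.log u := by rw [Real.le_log_iff_exp_le hu0]; exact hu.1
      have l2 : Real.log u ≤ Y₀ + Y₁ := by rw [Real.log_le_iff_le_exp hu0]; exact hu.2
      have : tn Y₀ Y₁ u = 2 / Y₁ * ((Y₀ + Y₁) - Real.log u) := by
        unfold tn
        rw [abs_of_nonneg (by linarith)]
        have e3 : 2 * (1 - (Real.log u - Y₀) / Y₁) = 2 / Y₁ * ((Y₀ + Y₁) - Real.log u) := by
          field_simp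
          ring
        rw [e3]
        exact max_eq_right (mul_nonneg (by positivity) (by linarith))
      simp only [this]
  · refine ContinuousOn.intervalIntegrable (hcont.mono fun u hu => ?_)
    rw [uIcc_of_le e1] at hu
    exact lt_of_lt_of_le (Real.exp_pos _) hu.1
  · refine ContinuousOn.intervalIntegrable (hcont.mono fun u hu => ?_)
    rw [uIcc_of_le e2] at hu
    exact lt_of_lt_of_le (Real.exp_pos _) hu.1
  · rintro u ⟨hu1, hu2⟩
    have hu0 : (0 : ℝ) < u := lt_trans one_pos hu1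
    have hz : tn Y₀ Y₁ u = 0 := by
      unfold tn
      apply max_eq_left
      have h3 : Y₁ ≤ |Real.log u - Y₀| := by
        by_cases h4 : u ≤ Real.exp (Y₀ - Y₁)
        · have l1 : Real.log u ≤ Y₀ - Y₁ := by rw [Real.log_le_iff_le_exp hu0]; exact h4
          rw [abs_of_nonpos (by linarith)]
          linarith
        · have h5 : Real.exp (Y₀ + Y₁) < u := by
            by_contra hcon
            exact hu2 ⟨lt_of_not_ge h4, not_lt.1 hcon⟩
          have l1 : Y₀ + Y₁ < Real.log u := by rw [Real.lt_log_iff_exp_lt hu0]; exact h5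
          rw [abs_of_nonneg (by linarith)]
          linarith
      have h6 : 1 ≤ |Real.log u - Y₀| / Y₁ := by rwa [one_le_div h1]
      linarith
    simp only [hz, zero_smul]

/-- the mass of the tent -/
private theorem mass_T33 (Y₀ Y₁ : ℝ) (h1 : 0 < Y₁) (h2 : Y₁ ≤ Y₀) :
    ∫ u in Ioi (1 : ℝ), tn Y₀ Y₁ u • (u⁻¹ : ℝ) = 2 * Y₁ := by
  have hg : ContinuousOn (fun u : ℝ => u⁻¹) (Ioi 0) :=
    continuousOn_inv₀.mono fun u hu => ne_of_gt hu
  rw [split_T33 Y₀ Y₁ h1 h2 _ hg]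
  have e1 : Real.exp (Y₀ - Y₁) ≤ Real.exp Y₀ := Real.exp_le_exp.2 (by linarith)
  have e2 : Real.exp Y₀ ≤ Real.exp (Y₀ + Y₁) := Real.exp_le_exp.2 (by linarith)
  have hlog : ContinuousOn (fun u : ℝ => Real.log u) (Ioi 0) := fun u hu =>
    (Real.continuousAt_log (ne_of_gt hu)).continuousWithinAt
  have i1 : ∫ u in (Real.exp (Y₀ - Y₁))..(Real.exp Y₀),
      (2 / Y₁ * (Real.log u - (Y₀ - Y₁))) • (u⁻¹ : ℝ) = Y₁ := by
    rw [intervalIntegral.integral_eq_sub_of_hasDerivAt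
      (f := fun u => 1 / Y₁ * (Real.log u - (Y₀ - Y₁)) ^ 2)]
    · simp only [Real.log_exp]
      field_simp
      ring
    · intro u hu
      rw [uIcc_of_le e1] at hu
      have hu0 : 0 < u := lt_of_lt_of_le (Real.exp_pos _) hu.1
      have h3 : HasDerivAt (fun u : ℝ => 1 / Y₁ * (Real.log u - (Y₀ - Y₁)) ^ 2)
          (1 / Y₁ * (((2 : ℕ) : ℝ) * (Real.log u - (Y₀ - Y₁)) ^ (2 - 1) * u⁻¹)) u :=
        (((Real.hasDerivAt_log hu0.ne').sub_const (Y₀ - Y₁)).pow 2).const_mul (1 / Y₁)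
      refine h3.congr_deriv ?_
      rw [smul_eq_mul]
      push_cast
      ring
    · refine ContinuousOn.intervalIntegrable ?_
      have : ContinuousOn (fun u : ℝ => (2 / Y₁ * (Real.log u - (Y₀ - Y₁))) • (u⁻¹ : ℝ)) (Ioi 0) :=
        (continuousOn_const.mul (hlog.sub continuousOn_const)).smul hg
      refine this.mono fun u hu => ?_
      rw [uIcc_of_le e1] at hu
      exact lt_of_lt_of_le (Real.exp_pos _) hu.1
  have i2 : ∫ u in (Real.exp Y₀)..(Real.exp (Y₀ + Y₁)),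
      (2 / Y₁ * ((Y₀ + Y₁) - Real.log u)) • (u⁻¹ : ℝ) = Y₁ := by
    rw [intervalIntegral.integral_eq_sub_of_hasDerivAt
      (f := fun u => -(1 / Y₁ * ((Y₀ + Y₁) - Real.log u) ^ 2))]
    · simp only [Real.log_exp]
      field_simp
      ring
    · intro u hu
      rw [uIcc_of_le e2] at hu
      have hu0 : 0 < u := lt_of_lt_of_le (Real.exp_pos _) hu.1
      have h3 : HasDerivAt (fun u : ℝ => -(1 / Y₁ * ((Y₀ + Y₁) - Real.log u) ^ 2))
          (-(1 / Y₁ * (((2 : ℕ) : ℝ) * ((Y₀ + Y₁) - Real.log u) ^ (2 - 1) * -u⁻¹))) u :=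
        ((((Real.hasDerivAt_log hu0.ne').const_sub (Y₀ + Y₁)).pow 2).const_mul (1 / Y₁)).neg
      refine h3.congr_deriv ?_
      rw [smul_eq_mul]
      push_cast
      ring
    · refine ContinuousOn.intervalIntegrable ?_
      have : ContinuousOn (fun u : ℝ => (2 / Y₁ * ((Y₀ + Y₁) - Real.log u)) • (u⁻¹ : ℝ)) (Ioi 0) :=
        (continuousOn_const.mul (continuousOn_const.sub hlog)).smul hg
      refine this.mono fun u hu => ?_
      rw [uIcc_of_le e2] at hu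
      exact lt_of_lt_of_le (Real.exp_pos _) hu.1
  rw [i1, i2]
  ring

/-- closed form of the transform -/
private theorem form_T33 (Y₀ Y₁ : ℝ) (h1 : 0 < Y₁) (h2 : Y₁ ≤ Y₀) (s : ℂ) (hs : s ≠ 1) :
    ∫ u in Ioi (1 : ℝ), tn Y₀ Y₁ u • (u : ℂ) ^ (-s) =
      ((2 / Y₁ : ℝ) : ℂ) * (((Real.exp (Y₀ - Y₁) : ℝ) : ℂ) ^ (-s + 1) +
        ((Real.exp (Y₀ + Y₁) : ℝ) : ℂ) ^ (-s + 1) - 2 * ((Real.exp Y₀ : ℝ) : ℂ) ^ (-s + 1)) /
        (-s + 1) ^ 2 := by
  have hg : ContinuousOn (fun u : ℝ => (u : ℂ) ^ (-s)) (Ioi 0) := by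
    intro u hu
    exact (Complex.continuousAt_ofReal_cpow_const u (-s) (Or.inr (ne_of_gt hu))).continuousWithinAt
  rw [split_T33 Y₀ Y₁ h1 h2 _ hg]
  have hb : (-s + 1) ≠ 0 := by
    intro h
    apply hs
    linear_combination -h
  have e1 : Real.exp (Y₀ - Y₁) ≤ Real.exp Y₀ := Real.exp_le_exp.2 (by linarith)
  have e2 : Real.exp Y₀ ≤ Real.exp (Y₀ + Y₁) := Real.exp_le_exp.2 (by linarith)
  have hlog : ContinuousOn (fun u : ℝ => Real.log u) (Ioi 0) := fun u hu =>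
    (Real.continuousAt_log (ne_of_gt hu)).continuousWithinAt
  -- the derivative of the basic antiderivative
  have hP : ∀ u : ℝ, 0 < u →
      HasDerivAt (fun y : ℝ => (y : ℂ) ^ (-s + 1) / (-s + 1)) ((u : ℂ) ^ (-s)) u := fun u hu =>
    hasDerivAt_ofReal_cpow_const' hu.ne' (fun h => hs (neg_injective h))
  have hcp : ∀ u : ℝ, 0 < u → (u : ℂ) ^ (-s + 1) = (u : ℂ) ^ (-s) * u := by
    intro u hu
    rw [Complex.cpow_add _ _ (by exact_mod_cast hu.ne'), Complex.cpow_one]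
  have hL : ∀ u : ℝ, 0 < u → HasDerivAt (fun y : ℝ => ((Real.log y : ℝ) : ℂ)) ((u⁻¹ : ℝ) : ℂ) u :=
    fun u hu => (Real.hasDerivAt_log hu.ne').ofReal_comp
  have i1 : ∫ u in (Real.exp (Y₀ - Y₁))..(Real.exp Y₀),
      (2 / Y₁ * (Real.log u - (Y₀ - Y₁))) • (u : ℂ) ^ (-s) =
      ((2 / Y₁ : ℝ) : ℂ) * (((Y₁ : ℝ) : ℂ) * (((Real.exp Y₀ : ℝ) : ℂ) ^ (-s + 1) / (-s + 1)) -
        ((Real.exp Y₀ : ℝ) : ℂ) ^ (-s + 1) / (-s + 1) / (-s + 1) +
        ((Real.exp (Y₀ - Y₁) : ℝ) : ℂ) ^ (-s + 1) / (-s + 1) / (-s + 1)) := by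
    rw [intervalIntegral.integral_eq_sub_of_hasDerivAt
      (f := fun u : ℝ => ((2 / Y₁ : ℝ) : ℂ) *
        ((((Real.log u : ℝ) : ℂ) - ((Y₀ - Y₁ : ℝ) : ℂ)) * ((u : ℂ) ^ (-s + 1) / (-s + 1)) -
          (u : ℂ) ^ (-s + 1) / (-s + 1) / (-s + 1)))]
    · simp only [Real.log_exp]
      push_cast
      ring
    · intro u hu
      rw [uIcc_of_le e1] at hu
      have hu0 : 0 < u := lt_of_lt_of_le (Real.exp_pos _) hu.1
      have h3 : HasDerivAt (fun u : ℝ => ((2 / Y₁ : ℝ) : ℂ) *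
        ((((Real.log u : ℝ) : ℂ) - ((Y₀ - Y₁ : ℝ) : ℂ)) * ((u : ℂ) ^ (-s + 1) / (-s + 1)) -
          (u : ℂ) ^ (-s + 1) / (-s + 1) / (-s + 1)))
          (((2 / Y₁ : ℝ) : ℂ) * (((u⁻¹ : ℝ) : ℂ) * ((u : ℂ) ^ (-s + 1) / (-s + 1)) +
            (((Real.log u : ℝ) : ℂ) - ((Y₀ - Y₁ : ℝ) : ℂ)) * (u : ℂ) ^ (-s) -
            (u : ℂ) ^ (-s) / (-s + 1))) u :=
        ((((hL u hu0).sub_const ((Y₀ - Y₁ : ℝ) : ℂ)).mul (hP u hu0)).sub
          ((hP u hu0).div_const (-s + 1))).const_mul ((2 / Y₁ : ℝ) : ℂ)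
      refine h3.congr_deriv ?_
      rw [hcp u hu0, Complex.real_smul]
      have hu1 : (u : ℂ) ≠ 0 := by exact_mod_cast hu0.ne'
      push_cast
      field_simp
      ring
    · refine ContinuousOn.intervalIntegrable ?_
      have : ContinuousOn (fun u : ℝ => (2 / Y₁ * (Real.log u - (Y₀ - Y₁))) • (u : ℂ) ^ (-s))
          (Ioi 0) := (continuousOn_const.mul (hlog.sub continuousOn_const)).smul hg
      refine this.mono fun u hu => ?_
      rw [uIcc_of_le e1] at hu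
      exact lt_of_lt_of_le (Real.exp_pos _) hu.1
  have i2 : ∫ u in (Real.exp Y₀)..(Real.exp (Y₀ + Y₁)),
      (2 / Y₁ * ((Y₀ + Y₁) - Real.log u)) • (u : ℂ) ^ (-s) =
      ((2 / Y₁ : ℝ) : ℂ) * (-(((Y₁ : ℝ) : ℂ) * (((Real.exp Y₀ : ℝ) : ℂ) ^ (-s + 1) / (-s + 1))) -
        ((Real.exp Y₀ : ℝ) : ℂ) ^ (-s + 1) / (-s + 1) / (-s + 1) +
        ((Real.exp (Y₀ + Y₁) : ℝ) : ℂ) ^ (-s + 1) / (-s + 1) / (-s + 1)) := by
    rw [intervalIntegral.integral_eq_sub_of_hasDerivAt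
      (f := fun u : ℝ => ((2 / Y₁ : ℝ) : ℂ) *
        ((((Y₀ + Y₁ : ℝ) : ℂ) - ((Real.log u : ℝ) : ℂ)) * ((u : ℂ) ^ (-s + 1) / (-s + 1)) +
          (u : ℂ) ^ (-s + 1) / (-s + 1) / (-s + 1)))]
    · simp only [Real.log_exp]
      push_cast
      ring
    · intro u hu
      rw [uIcc_of_le e2] at hu
      have hu0 : 0 < u := lt_of_lt_of_le (Real.exp_pos _) hu.1
      have h3 : HasDerivAt (fun u : ℝ => ((2 / Y₁ : ℝ) : ℂ) *
        ((((Y₀ + Y₁ : ℝ) : ℂ) - ((Real.log u : ℝ) : ℂ)) * ((u : ℂ) ^ (-s + 1) / (-s + 1)) +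
          (u : ℂ) ^ (-s + 1) / (-s + 1) / (-s + 1)))
          (((2 / Y₁ : ℝ) : ℂ) * (-((u⁻¹ : ℝ) : ℂ) * ((u : ℂ) ^ (-s + 1) / (-s + 1)) +
            (((Y₀ + Y₁ : ℝ) : ℂ) - ((Real.log u : ℝ) : ℂ)) * (u : ℂ) ^ (-s) +
            (u : ℂ) ^ (-s) / (-s + 1))) u :=
        ((((hL u hu0).const_sub ((Y₀ + Y₁ : ℝ) : ℂ)).mul (hP u hu0)).add
          ((hP u hu0).div_const (-s + 1))).const_mul ((2 / Y₁ : ℝ) : ℂ)
      refine h3.congr_deriv ?_
      rw [hcp u hu0, Complex.real_smul]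
      have hu1 : (u : ℂ) ≠ 0 := by exact_mod_cast hu0.ne'
      push_cast
      field_simp
      ring
    · refine ContinuousOn.intervalIntegrable ?_
      have : ContinuousOn (fun u : ℝ => (2 / Y₁ * ((Y₀ + Y₁) - Real.log u)) • (u : ℂ) ^ (-s))
          (Ioi 0) := (continuousOn_const.mul (continuousOn_const.sub hlog)).smul hg
      refine this.mono fun u hu => ?_
      rw [uIcc_of_le e2] at hu
      exact lt_of_lt_of_le (Real.exp_pos _) hu.1
  rw [i1, i2]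
  field_simp
  ring

theorem hTnt : StTnt := by
  intro κ X s hκ hX hs
  have hL : 0 < Real.log X := Real.log_pos hX
  have hX0 : 0 < X := by linarith
  set Y₀ := 13 / 2 * κ * Real.log X with hY0
  set Y₁ := 3 * κ * Real.log X with hY1
  have hκL : 0 < κ * Real.log X := mul_pos hκ hL
  have h1 : 0 < Y₁ := by rw [hY1]; nlinarith
  have h2 : Y₁ ≤ Y₀ := by rw [hY1, hY0]; nlinarith
  have hM : ∀ y : ℝ, y ≤ 10 * κ * Real.log X →
      (Real.exp y) ^ (1 - s.re) ≤ X ^ (10 * κ * (1 - s.re)) := by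
    intro y hy
    rw [Real.rpow_mul hX0.le]
    refine Real.rpow_le_rpow (Real.exp_pos _).le ?_ (by linarith)
    rw [Real.rpow_def_of_pos hX0]
    exact Real.exp_le_exp.2 (by linarith)
  have hM0 : 0 < X ^ (10 * κ * (1 - s.re)) := Real.rpow_pos_of_pos hX0 _
  have hconv : (∫ u in Set.Ioi (1 : ℝ), ((tk κ X u : ℝ) : ℂ) * (u : ℂ) ^ (-s)) =
      ∫ u in Set.Ioi (1 : ℝ), tn Y₀ Y₁ u • (u : ℂ) ^ (-s) := by
    refine setIntegral_congr_fun measurableSet_Ioi fun u _ => ?_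
    simp only [Complex.real_smul]
    rfl
  rw [hconv]
  refine ⟨?_, ?_⟩
  · have hmass := mass_T33 Y₀ Y₁ h1 h2
    have hint : IntegrableOn (fun u : ℝ => tn Y₀ Y₁ u • (u⁻¹ : ℝ)) (Ioi 1) := by
      by_contra hcon
      have : ∫ u in Ioi (1 : ℝ), tn Y₀ Y₁ u • (u⁻¹ : ℝ) = 0 := integral_undef hcon
      rw [hmass] at this
      linarith
    have hle : ∀ u ∈ Ioi (1 : ℝ), ‖tn Y₀ Y₁ u • (u : ℂ) ^ (-s)‖ ≤
        X ^ (10 * κ * (1 - s.re)) * (tn Y₀ Y₁ u • (u⁻¹ : ℝ)) := by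
      intro u hu
      have hu0 : (0 : ℝ) < u := lt_trans one_pos hu
      have ht0 : 0 ≤ tn Y₀ Y₁ u := le_max_left _ _
      rw [norm_smul, Real.norm_eq_abs, abs_of_nonneg ht0,
        Complex.norm_cpow_eq_rpow_re_of_pos hu0, smul_eq_mul]
      have hre : (-s).re = (1 - s.re) + (-1) := by rw [Complex.neg_re]; ring
      rw [hre, Real.rpow_add hu0, Real.rpow_neg_one]
      by_cases ht : tn Y₀ Y₁ u = 0
      · rw [ht]; simp
      · have hlog : Real.log u < Y₀ + Y₁ := by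
          by_contra hcon
          push Not at hcon
          apply ht
          unfold tn
          apply max_eq_left
          have h3 : Y₁ ≤ |Real.log u - Y₀| := by
            rw [abs_of_nonneg (by linarith)]; linarith
          have h6 : 1 ≤ |Real.log u - Y₀| / Y₁ := by rwa [one_le_div h1]
          linarith
        have h7 := hM (Real.log u) (by rw [hY0, hY1] at hlog; nlinarith)
        rw [Real.exp_log hu0] at h7
        have h8 : 0 ≤ tn Y₀ Y₁ u * u⁻¹ := mul_nonneg ht0 (inv_nonneg.2 hu0.le)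
        calc tn Y₀ Y₁ u * (u ^ (1 - s.re) * u⁻¹) = u ^ (1 - s.re) * (tn Y₀ Y₁ u * u⁻¹) := by ring
          _ ≤ _ := mul_le_mul_of_nonneg_right h7 h8
    calc ‖∫ u in Ioi (1 : ℝ), tn Y₀ Y₁ u • (u : ℂ) ^ (-s)‖
        ≤ ∫ u in Ioi (1 : ℝ), X ^ (10 * κ * (1 - s.re)) * (tn Y₀ Y₁ u • (u⁻¹ : ℝ)) :=
          norm_integral_le_of_norm_le (hint.const_mul _)
            ((ae_restrict_iff' measurableSet_Ioi).2 (Filter.Eventually.of_forall hle))
      _ = X ^ (10 * κ * (1 - s.re)) * (2 * Y₁) := by rw [integral_const_mul, hmass]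
      _ = 6 * κ * Real.log X * X ^ (10 * κ * (1 - s.re)) := by rw [hY1]; ring
  · intro him
    have hs1 : s ≠ 1 := by
      rintro rfl
      exact him Complex.one_im
    rw [form_T33 Y₀ Y₁ h1 h2 s hs1]
    have hE : ∀ y : ℝ, y ≤ 10 * κ * Real.log X →
        ‖((Real.exp y : ℝ) : ℂ) ^ (-s + 1)‖ ≤ X ^ (10 * κ * (1 - s.re)) := by
      intro y hy
      rw [Complex.norm_cpow_eq_rpow_re_of_pos (Real.exp_pos y)]
      have : (-s + 1).re = 1 - s.re := by simp; ring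
      rw [this]
      exact hM y hy
    have n1 := hE (Y₀ - Y₁) (by rw [hY0, hY1]; nlinarith)
    have n2 := hE (Y₀ + Y₁) (by rw [hY0, hY1]; nlinarith)
    have n3 := hE Y₀ (by rw [hY0]; nlinarith)
    have n4 : ‖((Real.exp (Y₀ - Y₁) : ℝ) : ℂ) ^ (-s + 1) +
        ((Real.exp (Y₀ + Y₁) : ℝ) : ℂ) ^ (-s + 1) - 2 * ((Real.exp Y₀ : ℝ) : ℂ) ^ (-s + 1)‖ ≤
        4 * X ^ (10 * κ * (1 - s.re)) := by
      refine (norm_sub_le _ _).trans ?_
      have n5 := norm_add_le (((Real.exp (Y₀ - Y₁) : ℝ) : ℂ) ^ (-s + 1))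
        (((Real.exp (Y₀ + Y₁) : ℝ) : ℂ) ^ (-s + 1))
      have n6 : ‖2 * ((Real.exp Y₀ : ℝ) : ℂ) ^ (-s + 1)‖ ≤ 2 * X ^ (10 * κ * (1 - s.re)) := by
        rw [norm_mul]
        have : ‖(2 : ℂ)‖ = 2 := by simp
        rw [this]
        linarith
      linarith
    have hbim : s.im ^ 2 ≤ ‖(-s + 1) ^ 2‖ := by
      rw [norm_pow]
      have h3 : |(-s + 1).im| ≤ ‖-s + 1‖ := Complex.abs_im_le_norm _
      have h4 : (-s + 1).im = -s.im := by simp
      rw [h4, abs_neg] at h3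
      nlinarith [abs_nonneg s.im, sq_abs s.im]
    have him2 : 0 < s.im ^ 2 := by positivity
    rw [norm_div, norm_mul, Complex.norm_real, Real.norm_eq_abs, abs_of_pos (by positivity)]
    calc 2 / Y₁ * ‖((Real.exp (Y₀ - Y₁) : ℝ) : ℂ) ^ (-s + 1) +
        ((Real.exp (Y₀ + Y₁) : ℝ) : ℂ) ^ (-s + 1) - 2 * ((Real.exp Y₀ : ℝ) : ℂ) ^ (-s + 1)‖ /
          ‖(-s + 1) ^ 2‖
        ≤ 2 / Y₁ * (4 * X ^ (10 * κ * (1 - s.re))) / s.im ^ 2 := by
          refine div_le_div₀ (by positivity) (mul_le_mul_of_nonneg_left n4 (by positivity)) him2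
            hbim
      _ ≤ 3 * X ^ (10 * κ * (1 - s.re)) / (κ * Real.log X * s.im ^ 2) := by
          rw [hY1, div_le_div_iff₀ him2 (by positivity)]
          have e : 2 / (3 * κ * Real.log X) * (4 * X ^ (10 * κ * (1 - s.re))) *
              (κ * Real.log X * s.im ^ 2) = 8 / 3 * X ^ (10 * κ * (1 - s.re)) * s.im ^ 2 := by
            field_simp
            ring
          rw [e]
          nlinarith [mul_pos hM0 him2]

end Pool.Agent.Helper33.MV
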